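import Mathlib.Data.Finset.Powerset
import Mathlib.Data.Fintype.Powerset
import Mathlib.Data.Fintype.Card
import Mathlib.Logic.Equiv.Basic
import Mathlib.Tactic

set_option autoImplicit false

/-!
# MP_63ed06_co : optimal `d`-intersecting families of chains never contain `X_0, …, X_{d-1}`
in all their chains, for `2 ≤ d ≤ n`
-/

namespace Pool.Agent.Results.MP_63ed06_co.TopSetWins

open Finset

/-- The set of members of a chain `A_1 ⊊ ⋯ ⊊ A_m`, `m ≥ 1`, of subsets of `[n]`. -/
def IsChainSet {n : ℕ} (C : Finset (Finset (Fin n))) : Prop :=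
  C.Nonempty ∧ ∀ S ∈ C, ∀ T ∈ C, S ⊆ T ∨ T ⊆ S

/-- `F` is a family of chains any two of which (equal or not) have at least `d` common members. -/
def DInt {n : ℕ} (d : ℕ) (F : Finset (Finset (Finset (Fin n)))) : Prop :=
  (∀ C ∈ F, IsChainSet C) ∧ ∀ C ∈ F, ∀ C' ∈ F, d ≤ (C ∩ C').card

/-- `F` is an optimal `d`-intersecting family of chains. -/
def Optimal {n : ℕ} (d : ℕ) (F : Finset (Finset (Finset (Fin n)))) : Prop :=
  DInt d F ∧ ∀ G : Finset (Finset (Finset (Fin n))), DInt d G → G.card ≤ F.card

/-- The set `X_j`, consisting of the first `j` elements of `[n]`. -/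
def X (n j : ℕ) : Finset (Fin n) := univ.filter (fun x => (x : ℕ) < j)

lemma mem_X {n j : ℕ} (x : Fin n) : x ∈ X n j ↔ (x : ℕ) < j := by simp [X]

lemma card_X {n j : ℕ} (h : j ≤ n) : (X n j).card = j := by
  rw [← card_image_of_injective _ Fin.val_injective]
  have : (X n j).image Fin.val = range j := by
    ext y
    simp only [mem_image, mem_range]
    constructor
    · rintro ⟨x, hx, rfl⟩
      exact (mem_X x).1 hx
    · intro hy
      exact ⟨⟨y, by omega⟩, (mem_X _).2 hy, rfl⟩
  rw [this, card_range]

lemma X_mono {n i j : ℕ} (h : i ≤ j) : X n i ⊆ X n j := by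
  intro x hx
  rw [mem_X] at *
  omega

lemma eq_of_card {n : ℕ} {C : Finset (Finset (Fin n))} (hC : IsChainSet C) {S T : Finset (Fin n)}
    (hS : S ∈ C) (hT : T ∈ C) (h : S.card = T.card) : S = T := by
  rcases hC.2 S hS T hT with h1 | h1
  · exact eq_of_subset_of_card_le h1 h.ge
  · exact (eq_of_subset_of_card_le h1 h.le).symm

theorem result : ∀ n d : ℕ, 2 ≤ d → d ≤ n → ∀ F : Finset (Finset (Finset (Fin n))),
    Optimal d F → ¬ ∀ C ∈ F, ∀ j, j < d → X n j ∈ C := by
  classical
  intro n d hd hdn F hF hall
  -- the two families
  let A : Finset (Finset (Finset (Fin n))) :=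
    univ.filter (fun C => IsChainSet C ∧ ∀ j, j < d → X n j ∈ C)
  let G : Finset (Finset (Finset (Fin n))) :=
    univ.filter (fun C => IsChainSet C ∧ (∀ j, j < d - 1 → X n j ∈ C) ∧ univ ∈ C)
  have hFA : F ⊆ A := by
    intro C hC
    simp only [A, mem_filter, mem_univ, true_and]
    exact ⟨hF.1.1 C hC, hall C hC⟩
  let K : Finset (Finset (Fin n)) := insert univ ((range (d - 1)).image (fun j => X n j))
  have huniv : (univ : Finset (Fin n)).card = n := by simp
  have hKimg : ((range (d - 1)).image (fun j => X n j)).card = d - 1 := by
    rw [card_image_of_injOn, card_range]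
    intro i hi j hj hij
    simp only [coe_range, Set.mem_Iio] at hi hj
    have h1 : (X n i).card = (X n j).card := by
      have : X n i = X n j := hij
      rw [this]
    rw [card_X (by omega), card_X (by omega)] at h1
    exact h1
  have hunot : (univ : Finset (Fin n)) ∉ (range (d - 1)).image (fun j => X n j) := by
    intro h
    obtain ⟨j, hj, hj'⟩ := mem_image.1 h
    rw [mem_range] at hj
    have h1 := card_X (n := n) (j := j) (by omega)
    rw [hj', huniv] at h1
    omega
  have hKcard : K.card = d := by
    rw [card_insert_of_notMem hunot, hKimg]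
    omega
  have hG : DInt d G := by
    constructor
    · intro C hC
      simp only [G, mem_filter, mem_univ, true_and] at hC
      exact hC.1
    · intro C hC C' hC'
      simp only [G, mem_filter, mem_univ, true_and] at hC hC'
      rw [← hKcard]
      apply card_le_card
      intro S hS
      rw [mem_inter]
      rw [mem_insert, mem_image] at hS
      rcases hS with rfl | ⟨j, hj, rfl⟩
      · exact ⟨hC.2.2, hC'.2.2⟩
      · rw [mem_range] at hj
        exact ⟨hC.2.1 j hj, hC'.2.1 j hj⟩
  -- the transposition
  let a : Fin n := ⟨d - 2, by omega⟩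
  let b : Fin n := ⟨n - 1, by omega⟩
  let τ : Equiv.Perm (Fin n) := Equiv.swap a b
  have hinj : Function.Injective (fun S : Finset (Fin n) => S.image τ) :=
    image_injective τ.injective
  have hτX : ∀ j, j < d - 1 → (X n j).image τ = X n j := by
    intro j hj
    ext x
    rw [mem_image]
    constructor
    · rintro ⟨y, hy, rfl⟩
      have h1 : y ≠ a := by
        rintro rfl
        rw [mem_X] at hy
        simp only [a] at hy
        omega
      have h2 : y ≠ b := by
        rintro rfl
        rw [mem_X] at hy
        simp only [b] at hy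
        omega
      rw [Equiv.swap_apply_of_ne_of_ne h1 h2]
      exact hy
    · intro hx
      have h1 : x ≠ a := by
        rintro rfl
        rw [mem_X] at hx
        simp only [a] at hx
        omega
      have h2 : x ≠ b := by
        rintro rfl
        rw [mem_X] at hx
        simp only [b] at hx
        omega
      exact ⟨x, hx, Equiv.swap_apply_of_ne_of_ne h1 h2⟩
  have hτne : (X n (d - 1)).image τ ≠ X n (d - 1) := by
    intro h
    have h1 : a ∈ X n (d - 1) := by
      rw [mem_X]; simp only [a]; omega
    have h2 : τ a ∈ (X n (d - 1)).image τ := mem_image_of_mem _ h1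
    rw [h, Equiv.swap_apply_left, mem_X] at h2
    simp only [b] at h2
    omega
  have hτcard : ((X n (d - 1)).image τ).card = d - 1 := by
    rw [card_image_of_injective _ τ.injective, card_X (by omega)]
  have hτuniv : (univ : Finset (Fin n)).image τ = univ := by
    rw [eq_univ_iff_forall]
    intro x
    exact mem_image.2 ⟨τ.symm x, mem_univ _, by simp⟩
  let φ : Finset (Finset (Fin n)) → Finset (Finset (Fin n)) := fun C =>
    if univ ∈ C then C else insert univ (C.image (fun S => S.image τ))
  have hφ : ∀ C ∈ A, φ C ∈ G ∧ ∃ S ∈ φ C, S.card = d - 1 := by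
    intro C hC
    simp only [A, mem_filter, mem_univ, true_and] at hC
    obtain ⟨hC1, hC2⟩ := hC
    by_cases hu : univ ∈ C
    · simp only [φ, if_pos hu]
      constructor
      · simp only [G, mem_filter, mem_univ, true_and]
        exact ⟨hC1, fun j hj => hC2 j (by omega), hu⟩
      · exact ⟨X n (d - 1), hC2 _ (by omega), card_X (by omega)⟩
    · simp only [φ, if_neg hu]
      constructor
      · simp only [G, mem_filter, mem_univ, true_and]
        refine ⟨⟨⟨univ, mem_insert_self _ _⟩, ?_⟩, ?_, mem_insert_self _ _⟩
        · intro S hS T hT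
          rw [mem_insert, mem_image] at hS hT
          rcases hS with rfl | ⟨S', hS', rfl⟩
          · exact Or.inr (subset_univ _)
          · rcases hT with rfl | ⟨T', hT', rfl⟩
            · exact Or.inl (subset_univ _)
            · rcases hC1.2 S' hS' T' hT' with h | h
              · exact Or.inl (image_subset_image h)
              · exact Or.inr (image_subset_image h)
        · intro j hj
          rw [mem_insert, mem_image]
          exact Or.inr ⟨X n j, hC2 j (by omega), hτX j hj⟩
      · exact ⟨(X n (d - 1)).image τ, mem_insert_of_mem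
          (mem_image_of_mem _ (hC2 _ (by omega))), hτcard⟩
  have hK : K ∈ G := by
    simp only [G, mem_filter, mem_univ, true_and]
    refine ⟨⟨⟨univ, mem_insert_self _ _⟩, ?_⟩, ?_, mem_insert_self _ _⟩
    · intro S hS T hT
      rw [mem_insert, mem_image] at hS hT
      rcases hS with rfl | ⟨i, hi, rfl⟩
      · exact Or.inr (subset_univ _)
      · rcases hT with rfl | ⟨j, hj, rfl⟩
        · exact Or.inl (subset_univ _)
        · rcases le_total i j with h | h
          · exact Or.inl (X_mono h)
          · exact Or.inr (X_mono h)
    · intro j hj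
      exact mem_insert_of_mem (mem_image.2 ⟨j, mem_range.2 hj, rfl⟩)
  have hKno : ∀ S ∈ K, S.card ≠ d - 1 := by
    intro S hS
    rw [mem_insert, mem_image] at hS
    rcases hS with rfl | ⟨j, hj, rfl⟩
    · rw [huniv]; omega
    · rw [mem_range] at hj
      rw [card_X (by omega)]
      omega
  have hcard : A.card ≤ (G.erase K).card := by
    apply card_le_card_of_injOn φ
    · intro C hC
      obtain ⟨h1, S, hS, hS'⟩ := hφ C hC
      rw [coe_erase]
      refine ⟨h1, ?_⟩
      intro h
      rw [Set.mem_singleton_iff] at h
      rw [h] at hS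
      exact hKno S hS hS'
    · intro C hC D hD h
      have hC' := hC
      have hD' := hD
      simp only [A, coe_filter, mem_univ, true_and, Set.mem_ofPred_eq] at hC' hD'
      have mixed : ∀ P Q : Finset (Finset (Fin n)), IsChainSet P → X n (d - 1) ∈ P →
          X n (d - 1) ∈ Q → univ ∉ Q → insert univ (Q.image (fun S => S.image τ)) = P → False := by
        intro P Q hP hXP hXQ _ hPQ
        have h1 : (X n (d - 1)).image τ ∈ P := by
          rw [← hPQ]
          exact mem_insert_of_mem (mem_image_of_mem _ hXQ)
        exact hτne (eq_of_card hP h1 hXP (by rw [hτcard, card_X (by omega)]))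
      simp only [φ] at h
      split_ifs at h with h1 h2 h2
      · exact h
      · exact (mixed C D hC'.1 (hC'.2 _ (by omega)) (hD'.2 _ (by omega)) h2 h.symm).elim
      · exact (mixed D C hD'.1 (hD'.2 _ (by omega)) (hC'.2 _ (by omega)) h1 h).elim
      · have nu : ∀ P : Finset (Finset (Fin n)), univ ∉ P →
            univ ∉ P.image (fun S => S.image τ) := by
          intro P hP hP'
          obtain ⟨S, hS, hS'⟩ := mem_image.1 hP'
          apply hP
          have : S = univ := hinj (hS'.trans hτuniv.symm)
          rwa [this] at hS
        have h3 : C.image (fun S => S.image τ) = D.image (fun S => S.image τ) := by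
          rw [← erase_insert (nu C h1), ← erase_insert (nu D h2), h]
        exact image_injective hinj h3
  have h1 := card_erase_of_mem hK
  have h2 : 0 < G.card := card_pos.2 ⟨K, hK⟩
  have h3 := hF.2 G hG
  have h4 := card_le_card hFA
  omega

end Pool.Agent.Results.MP_63ed06_co.TopSetWins
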